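import Mathlib

/-!
# MP_405529_ag, Q1

For `g = 4` there are a parameter `B` and two different complex discrete Gaussians with the
parameter `B` that have the same moments up to order three.
-/

namespace Pool.Agent.Results.MP_405529_ag.StarGraph

open Complex

/-- `B` is symmetric with positive definite real part. -/
def IsParam {g : ℕ} (B : Matrix (Fin g) (Fin g) ℂ) : Prop :=
  B.IsSymm ∧ (B.map Complex.re).PosDef

/-- The weight `e^{2π(nᵗu - nᵗBn/2)}`. -/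
noncomputable def wt {g : ℕ} (u : Fin g → ℂ) (B : Matrix (Fin g) (Fin g) ℂ) (n : Fin g → ℤ) : ℂ :=
  Complex.exp (2 * Real.pi *
    (∑ i, (n i : ℂ) * u i - 1 / 2 * ∑ i, ∑ j, (n i : ℂ) * B i j * (n j : ℂ)))

/-- The theta function. -/
noncomputable def theta {g : ℕ} (u : Fin g → ℂ) (B : Matrix (Fin g) (Fin g) ℂ) : ℂ :=
  ∑' n : Fin g → ℤ, wt u B n

/-- The discrete Gaussian. -/
noncomputable def dg {g : ℕ} (u : Fin g → ℂ) (B : Matrix (Fin g) (Fin g) ℂ) (n : Fin g → ℤ) : ℂ :=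
  wt u B n / theta u B

/-- The moment of a multi-index. -/
noncomputable def moment {g : ℕ} (u : Fin g → ℂ) (B : Matrix (Fin g) (Fin g) ℂ)
    (α : Fin g → ℕ) : ℂ :=
  ∑' n : Fin g → ℤ, (∏ i, (n i : ℂ) ^ α i) * dg u B n

/-- In dimension `g`, complex discrete Gaussians with the same parameter are determined by their
moments up to order three. -/
def Identifiable (g : ℕ) : Prop :=
  ∀ B : Matrix (Fin g) (Fin g) ℂ, IsParam B → ∀ u u' : Fin g → ℂ,
    theta u B ≠ 0 → theta u' B ≠ 0 →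
    (∀ α : Fin g → ℕ, ∑ i, α i ≤ 3 → moment u B α = moment u' B α) →
    ∀ n : Fin g → ℤ, dg u B n = dg u' B n

/-! ### Sums of products -/

theorem pi_prod : ∀ {g : ℕ} (f : Fin g → ℤ → ℂ), (∀ i, Summable fun k => ‖f i k‖) →
    Summable (fun n : Fin g → ℤ => ‖∏ i, f i (n i)‖) ∧
      ∑' n : Fin g → ℤ, ∏ i, f i (n i) = ∏ i, ∑' k, f i k
  | 0, f, _ => by
    constructor
    · exact (hasSum_fintype _).summable
    · simp
  | g + 1, f, h => by
    obtain ⟨h1, h2⟩ := pi_prod (fun i : Fin g => f i.succ) (fun i => h i.succ)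
    have e : ∀ p : ℤ × (Fin g → ℤ),
        ∏ i, f i ((Fin.consEquiv (fun _ : Fin (g + 1) => ℤ)) p i) =
          f 0 p.1 * ∏ i : Fin g, f i.succ (p.2 i) := by
      intro p
      rw [Fin.prod_univ_succ]
      simp [Fin.consEquiv]
    constructor
    · rw [← (Fin.consEquiv (fun _ : Fin (g + 1) => ℤ)).summable_iff]
      refine ((h 0).mul_norm h1).congr fun p => ?_
      simp only [Function.comp_apply]
      rw [e]
    · rw [← (Fin.consEquiv (fun _ : Fin (g + 1) => ℤ)).tsum_eq]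
      simp_rw [e]
      rw [← tsum_mul_tsum_of_summable_norm (h 0) h1, h2, Fin.prod_univ_succ]

/-! ### The one-dimensional series -/

/-- `e^{-πn²/2}` -/
noncomputable def e (n : ℤ) : ℂ := Complex.exp (-(Real.pi / 2 * (n : ℂ) ^ 2))

/-- `n^k ((-1)^n)^s e^{-πn²/2}` -/
noncomputable def f (k s : ℕ) (n : ℤ) : ℂ := (n : ℂ) ^ k * ((-1 : ℂ) ^ n) ^ s * e n

/-- The sum of `f`. -/
noncomputable def A (k s : ℕ) : ℂ := ∑' n, f k s n

theorem norm_sign (n : ℤ) : ‖((-1 : ℂ) ^ n)‖ = 1 := by simp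

theorem sign_sq (n : ℤ) : ((-1 : ℂ) ^ n) ^ 2 = 1 := by
  rcases Int.even_or_odd n with h | h
  · simp [h.neg_one_zpow]
  · simp [h.neg_one_zpow]

theorem norm_e (n : ℤ) : ‖e n‖ = Real.exp (-(Real.pi / 2 * (n : ℝ) ^ 2)) := by
  rw [e, show (-(Real.pi / 2 * (n : ℂ) ^ 2)) = ((-(Real.pi / 2 * (n : ℝ) ^ 2) : ℝ) : ℂ) by
    push_cast; rfl, ← Complex.ofReal_exp, Complex.norm_real, Real.norm_eq_abs, abs_of_pos
    (Real.exp_pos _)]

theorem summable_f (k s : ℕ) : Summable fun n => ‖f k s n‖ := by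
  have h := summable_pow_mul_jacobiTheta₂_term_bound 0 (T := 1 / 2) (by norm_num) k
  refine h.congr fun n => ?_
  rw [f, norm_mul, norm_mul, norm_pow, norm_pow, norm_sign, one_pow, mul_one, norm_e]
  congr 1
  · simp
  · congr 1
    ring

theorem f_two (k s : ℕ) (n : ℤ) : f k (s + 2) n = f k s n := by
  rw [f, f, pow_add, sign_sq, mul_one]

theorem A_odd {k : ℕ} (hk : Odd k) (s : ℕ) : A k s = 0 := by
  have h : A k s = - A k s := by
    conv_lhs => rw [A, ← (Equiv.neg ℤ).tsum_eq]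
    rw [A, ← tsum_neg]
    refine tsum_congr fun n => ?_
    have h1 : ((-1 : ℂ) ^ (-n)) = (-1) ^ n := by rw [zpow_neg, ← inv_zpow, inv_neg_one]
    simp only [f, e, Equiv.neg_apply, Int.cast_neg, hk.neg_pow, h1, even_two.neg_pow]
    ring
  have : (2 : ℂ) * A k s = 0 := by linear_combination h
  simpa using this

/-- the real series -/
noncomputable def α : ℝ := ∑' n : ℤ, Real.exp (-Real.pi * (1 / 2) * (n : ℝ) ^ 2)

theorem summable_real {t : ℝ} (ht : 0 < t) :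
    Summable fun n : ℤ => Real.exp (-Real.pi * t * (n : ℝ) ^ 2) := by
  have h := summable_pow_mul_jacobiTheta₂_term_bound 0 (T := t) ht 0
  refine h.congr fun n => ?_
  rw [pow_zero, one_mul]
  congr 1
  ring

theorem α_pos : 0 < α := by
  have hs := summable_real (t := 1 / 2) (by norm_num)
  exact hs.tsum_pos (fun n => (Real.exp_pos _).le) 0 (Real.exp_pos _)

theorem A00 : A 0 0 = (α : ℂ) := by
  rw [A, α, Complex.ofReal_tsum]
  refine tsum_congr fun n => ?_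
  rw [f, e, pow_zero, pow_zero, one_mul, one_mul, Complex.ofReal_exp]
  congr 1
  push_cast
  ring

theorem A_add : A 0 0 + A 0 1 = 2 * ((∑' n : ℤ, Real.exp (-Real.pi / (1 / 2) * (n : ℝ) ^ 2) : ℝ) : ℂ) := by
  rw [A, A, ← ((summable_f 0 0).of_norm).tsum_add ((summable_f 0 1).of_norm)]
  have hinj : Function.Injective (fun m : ℤ => 2 * m) := fun a b h => by
    simp only at h
    omega
  rw [← hinj.tsum_eq (f := fun n => f 0 0 n + f 0 1 n)]
  · rw [Complex.ofReal_tsum, ← tsum_mul_left]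
    refine tsum_congr fun m => ?_
    simp only [f]
    have h1 : ((-1 : ℂ) ^ (2 * m)) = 1 := (even_two_mul m).neg_one_zpow
    rw [h1, e, Complex.ofReal_exp]
    have h2 : (-(Real.pi / 2 * ((2 * m : ℤ) : ℂ) ^ 2)) =
        ((-Real.pi / (1 / 2) * (m : ℝ) ^ 2 : ℝ) : ℂ) := by
      push_cast
      ring
    rw [h2]
    ring
  · intro n hn
    by_contra hcon
    apply hn
    have ho : Odd n := by
      rcases Int.even_or_odd n with h | h
      · obtain ⟨m, rfl⟩ := h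
        exact absurd ⟨m, by simp only; ring⟩ hcon
      · exact h
    simp only [f]
    rw [ho.neg_one_zpow]
    ring

theorem A01 : A 0 1 = (Real.sqrt 2 - 1 : ℝ) * A 0 0 := by
  have h := Real.tsum_exp_neg_mul_int_sq (a := 1 / 2) (by norm_num)
  have h1 : (1 : ℝ) / (1 / 2 : ℝ) ^ (1 / 2 : ℝ) = Real.sqrt 2 := by
    rw [← Real.sqrt_eq_rpow, one_div, ← Real.sqrt_inv]
    norm_num
  rw [h1] at h
  have h2 := A_add
  have h3 : (α : ℂ) = (Real.sqrt 2 : ℂ) *
      ((∑' n : ℤ, Real.exp (-Real.pi / (1 / 2) * (n : ℝ) ^ 2) : ℝ) : ℂ) := by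
    rw [← Complex.ofReal_mul, ← h]
    rfl
  have h4 : (Real.sqrt 2 : ℂ) * (Real.sqrt 2 : ℂ) = 2 := by
    rw [← Complex.ofReal_mul, Real.mul_self_sqrt (by norm_num)]
    norm_num
  rw [A00] at h2 ⊢
  push_cast
  linear_combination h2 - (Real.sqrt 2 : ℂ) * h3 - ((∑' n : ℤ, Real.exp (-Real.pi / (1 / 2) * (n : ℝ) ^ 2) : ℝ) : ℂ) * h4

/-! ### The example -/

/-- The adjacency matrix of the star with centre `3` and leaves `0, 1, 2`. -/
def S : Matrix (Fin 4) (Fin 4) ℂ := !![0, 0, 0, 1; 0, 0, 0, 1; 0, 0, 0, 1; 1, 1, 1, 0]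

/-- The parameter `(1 + iS)/2`. -/
noncomputable def B : Matrix (Fin 4) (Fin 4) ℂ := (1 / 2 : ℂ) • (1 + Complex.I • S)

/-- The points `u = (i/2) (a_0, a_1, a_2, 0)`. -/
noncomputable def uOf (a : Fin 3 → ℕ) : Fin 4 → ℂ :=
  ![Complex.I / 2 * a 0, Complex.I / 2 * a 1, Complex.I / 2 * a 2, 0]

theorem isParam_B : IsParam B := by
  constructor
  · ext i j
    fin_cases i <;> fin_cases j <;> simp [B, S]
  · have h : B.map Complex.re = Matrix.diagonal fun _ => (1 / 2 : ℝ) := by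
      ext i j
      fin_cases i <;> fin_cases j <;> simp [B, S]
    rw [h]
    exact Matrix.PosDef.diagonal fun _ => by norm_num

theorem exp_sign (m : ℤ) : Complex.exp (Real.pi * Complex.I * m) = (-1 : ℂ) ^ m := by
  rw [mul_comm, Complex.exp_int_mul, Complex.exp_pi_mul_I]

theorem center_sign (m k : ℤ) : ((-1 : ℂ) ^ (m * k)) =
    (1 + (-1 : ℂ) ^ m) / 2 + (1 - (-1 : ℂ) ^ m) / 2 * (-1 : ℂ) ^ k := by
  rw [zpow_mul]
  rcases Int.even_or_odd m with h | h
  · rw [h.neg_one_zpow]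
    simp
  · rw [h.neg_one_zpow]
    ring

theorem wt_eq (a : Fin 3 → ℕ) (n : Fin 4 → ℤ) : wt (uOf a) B n =
    e (n 0) * e (n 1) * e (n 2) * e (n 3) * (((-1 : ℂ) ^ (n 0)) ^ a 0 * ((-1 : ℂ) ^ (n 1)) ^ a 1 *
      ((-1 : ℂ) ^ (n 2)) ^ a 2) * ((-1 : ℂ) ^ (n 3 * (n 0 + n 1 + n 2))) := by
  have h1 : ∀ (m : ℤ) (s : ℕ), ((-1 : ℂ) ^ m) ^ s = Complex.exp (Real.pi * Complex.I * m * s) := by
    intro m s
    rw [← exp_sign, ← Complex.exp_nat_mul]
    congr 1
    ring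
  have h2 : ((-1 : ℂ) ^ (n 3 * (n 0 + n 1 + n 2))) =
      Complex.exp (-(Real.pi * Complex.I * (n 3 * (n 0 + n 1 + n 2) : ℤ))) := by
    rw [Complex.exp_neg, exp_sign, ← inv_zpow, inv_neg_one]
  rw [h1, h1, h1, h2, e, e, e, e, wt, ← Complex.exp_add, ← Complex.exp_add, ← Complex.exp_add,
    ← Complex.exp_add, ← Complex.exp_add, ← Complex.exp_add, ← Complex.exp_add]
  congr 1
  simp only [Fin.sum_univ_four, uOf, B, S, Matrix.smul_apply, Matrix.add_apply, Matrix.one_apply]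
  simp
  ring

/-- A product term. -/
noncomputable def T (c s : Fin 4 → ℕ) (n : Fin 4 → ℤ) : ℂ := ∏ i, f (c i) (s i) (n i)

theorem T_summable (c s : Fin 4 → ℕ) : Summable (T c s) :=
  ((pi_prod (fun i => f (c i) (s i)) fun _ => summable_f _ _).1).of_norm

theorem T_tsum (c s : Fin 4 → ℕ) : ∑' n, T c s n = ∏ i, A (c i) (s i) :=
  (pi_prod (fun i => f (c i) (s i)) fun _ => summable_f _ _).2

theorem term_eq (a : Fin 3 → ℕ) (c : Fin 4 → ℕ) (n : Fin 4 → ℤ) :
    (∏ i, (n i : ℂ) ^ c i) * wt (uOf a) B n =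
      1 / 2 * (T c ![a 0, a 1, a 2, 0] n + T c ![a 0, a 1, a 2, 1] n +
        T c ![a 0 + 1, a 1 + 1, a 2 + 1, 0] n - T c ![a 0 + 1, a 1 + 1, a 2 + 1, 1] n) := by
  rw [wt_eq, center_sign, zpow_add₀ (by norm_num), zpow_add₀ (by norm_num)]
  simp only [T, Fin.prod_univ_four, f]
  simp [pow_succ]
  ring

theorem sum_eq (a : Fin 3 → ℕ) (c : Fin 4 → ℕ) :
    ∑' n, (∏ i, (n i : ℂ) ^ c i) * wt (uOf a) B n =
      1 / 2 * (A (c 0) (a 0) * A (c 1) (a 1) * A (c 2) (a 2) * A (c 3) 0 +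
        A (c 0) (a 0) * A (c 1) (a 1) * A (c 2) (a 2) * A (c 3) 1 +
        A (c 0) (a 0 + 1) * A (c 1) (a 1 + 1) * A (c 2) (a 2 + 1) * A (c 3) 0 -
        A (c 0) (a 0 + 1) * A (c 1) (a 1 + 1) * A (c 2) (a 2 + 1) * A (c 3) 1) := by
  simp_rw [term_eq]
  rw [tsum_mul_left, Summable.tsum_sub (((T_summable _ _).add (T_summable _ _)).add
    (T_summable _ _)) (T_summable _ _), Summable.tsum_add ((T_summable _ _).add (T_summable _ _))
    (T_summable _ _), Summable.tsum_add (T_summable _ _) (T_summable _ _), T_tsum, T_tsum, T_tsum,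
    T_tsum]
  simp [Fin.prod_univ_four]

theorem A_two (k : ℕ) : A k 2 = A k 0 := tsum_congr fun n => f_two k 0 n

/-- The key relation between the two values. -/
theorem rel : A 0 1 ^ 2 + 2 * A 0 0 * A 0 1 - A 0 0 ^ 2 = 0 := by
  have h4 : (Real.sqrt 2 : ℂ) * (Real.sqrt 2 : ℂ) = 2 := by
    rw [← Complex.ofReal_mul, Real.mul_self_sqrt (by norm_num)]
    norm_num
  rw [A01]
  push_cast
  linear_combination A 0 0 ^ 2 * h4

theorem theta_eq (a : Fin 3 → ℕ) : theta (uOf a) B =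
      1 / 2 * (A 0 (a 0) * A 0 (a 1) * A 0 (a 2) * A 0 0 +
        A 0 (a 0) * A 0 (a 1) * A 0 (a 2) * A 0 1 +
        A 0 (a 0 + 1) * A 0 (a 1 + 1) * A 0 (a 2 + 1) * A 0 0 -
        A 0 (a 0 + 1) * A 0 (a 1 + 1) * A 0 (a 2 + 1) * A 0 1) := by
  have h := sum_eq a (fun _ => 0)
  simpa [theta] using h

theorem theta1 : theta (uOf ![1, 1, 0]) B = 1 / 2 * (A 0 0 * A 0 1 * (A 0 0 ^ 2 + A 0 1 ^ 2)) := by
  rw [theta_eq]
  simp [A_two]
  ring

theorem theta2 : theta (uOf ![1, 0, 1]) B = 1 / 2 * (A 0 0 * A 0 1 * (A 0 0 ^ 2 + A 0 1 ^ 2)) := by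
  rw [theta_eq]
  simp [A_two]
  ring

theorem theta_ne : (1 / 2 : ℂ) * (A 0 0 * A 0 1 * (A 0 0 ^ 2 + A 0 1 ^ 2)) ≠ 0 := by
  have h2 : 1 < Real.sqrt 2 := by
    rw [Real.lt_sqrt (by norm_num)]
    norm_num
  have h : (1 / 2 : ℂ) * (A 0 0 * A 0 1 * (A 0 0 ^ 2 + A 0 1 ^ 2)) =
      ((1 / 2 * (α * ((Real.sqrt 2 - 1) * α) * (α ^ 2 + ((Real.sqrt 2 - 1) * α) ^ 2)) : ℝ) : ℂ) := by
    rw [A01, A00]
    push_cast
    ring
  rw [h, Complex.ofReal_ne_zero]
  have hα := α_pos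
  have h3 : 0 < Real.sqrt 2 - 1 := by linarith
  positivity

theorem moment_eq (a : Fin 3 → ℕ) (c : Fin 4 → ℕ) : moment (uOf a) B c =
    (∑' n, (∏ i, (n i : ℂ) ^ c i) * wt (uOf a) B n) / theta (uOf a) B := by
  rw [moment, ← tsum_div_const]
  refine tsum_congr fun n => ?_
  rw [dg, mul_div_assoc]

theorem sums_agree (c0 c1 c2 c3 : ℕ) (h : c0 + c1 + c2 + c3 ≤ 3) :
    1 / 2 * (A c0 1 * A c1 1 * A c2 0 * A c3 0 + A c0 1 * A c1 1 * A c2 0 * A c3 1 +
        A c0 0 * A c1 0 * A c2 1 * A c3 0 - A c0 0 * A c1 0 * A c2 1 * A c3 1) =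
    1 / 2 * (A c0 1 * A c1 0 * A c2 1 * A c3 0 + A c0 1 * A c1 0 * A c2 1 * A c3 1 +
        A c0 0 * A c1 1 * A c2 0 * A c3 0 - A c0 0 * A c1 1 * A c2 0 * A c3 1) := by
  have h1 : ∀ s, A 1 s = 0 := fun s => A_odd (by decide) s
  have h3 : ∀ s, A 3 s = 0 := fun s => A_odd (by decide) s
  have hc0 : c0 ≤ 3 := by omega
  have hc1 : c1 ≤ 3 := by omega
  have hc2 : c2 ≤ 3 := by omega
  have hc3 : c3 ≤ 3 := by omega
  have hr := rel
  interval_cases c0 <;> interval_cases c1 <;> interval_cases c2 <;> interval_cases c3 <;>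
    first
    | omega
    | ring1
    | (simp [h1, h3]; done)
    | linear_combination (1 / 2 * (A 0 0 * A 2 1 - A 0 1 * A 2 0)) * hr
    | linear_combination (-1 / 2 * (A 0 0 * A 2 1 - A 0 1 * A 2 0)) * hr

/-- For `g = 4` there are a parameter `B` and two different complex discrete Gaussians with the
parameter `B` with the same moments up to order three. -/
theorem result : ¬ Identifiable 4 := by
  intro hI
  have key := hI B isParam_B (uOf ![1, 1, 0]) (uOf ![1, 0, 1])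
    (by rw [theta1]; exact theta_ne) (by rw [theta2]; exact theta_ne)
    (by
      intro c hc
      rw [moment_eq, moment_eq, theta1, theta2, sum_eq, sum_eq]
      congr 1
      have := sums_agree (c 0) (c 1) (c 2) (c 3) (by rw [Fin.sum_univ_four] at hc; exact hc)
      simpa [A_two] using this)
  have k := key ![0, 1, 0, 0]
  rw [dg, dg, theta1, theta2, div_left_inj' theta_ne, wt_eq, wt_eq] at k
  have he : e 1 ≠ 0 := Complex.exp_ne_zero _
  have he0 : e 0 ≠ 0 := Complex.exp_ne_zero _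
  simp at k
  have hX : e 0 * e 1 * e 0 * e 0 ≠ 0 := by simp [he, he0]
  apply hX
  linear_combination (-1 / 2 : ℂ) * k

end Pool.Agent.Results.MP_405529_ag.StarGraph
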